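import Pool.Agent.Lib.MP_0e93e1_an.Rot

/-!
Operators with a left inverse, the codimension of their range, and the bounds that a circular gap
in the spectrum gives.
-/

open Metric Set Filter Topology
open scoped Real

noncomputable section

namespace Pool.Agent.Lib.MP_0e93e1_an.Ess

section general

variable {E : Type} [NormedAddCommGroup E] [NormedSpace ℂ E]

/-- the codimension of the range -/
def cod (A : E →L[ℂ] E) : Cardinal := Module.rank ℂ (E ⧸ A.range)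

/-- `A` has a left inverse and its range has codimension `k` -/
def Good (A : E →L[ℂ] E) (k : ℕ) : Prop := (∃ N : E →L[ℂ] E, N * A = 1) ∧ cod A = k

lemma injective_of_left {A N : E →L[ℂ] E} (h : N * A = 1) : Function.Injective A := by
  intro x y hxy
  have h1 : ∀ z, N (A z) = z := fun z => by rw [← mul_apply_eq_comp, h]; rfl
  rw [← h1 x, hxy, h1]

lemma cod_mul {A : E →L[ℂ] E} (hA : Function.Injective A) (B : E →L[ℂ] E) :
    cod (A * B) = cod A + cod B := by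
  have h1 : (A * B).range ≤ A.range := by
    rintro _ ⟨x, rfl⟩
    exact ⟨B x, rfl⟩
  have h2 : B.range ≤ Submodule.comap (A : E →ₗ[ℂ] E) (A * B).range := by
    rintro _ ⟨x, rfl⟩
    exact ⟨x, rfl⟩
  let g : (E ⧸ (A * B).range) →ₗ[ℂ] E ⧸ A.range := Submodule.factor h1
  let f : (E ⧸ B.range) →ₗ[ℂ] E ⧸ (A * B).range := Submodule.mapQ _ _ (A : E →ₗ[ℂ] E) h2
  have hg : Function.Surjective g := Submodule.factor_surjective h1
  have hf : Function.Injective f := by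
    rw [← LinearMap.ker_eq_bot, LinearMap.ker_eq_bot']
    intro x hx
    obtain ⟨y, rfl⟩ := Submodule.Quotient.mk_surjective _ x
    have h3 : A y ∈ (A * B).range := (Submodule.Quotient.mk_eq_zero _).1 hx
    obtain ⟨z, hz⟩ := h3
    exact (Submodule.Quotient.mk_eq_zero _).2 ⟨z, hA hz⟩
  have hk : LinearMap.ker g = LinearMap.range f := by
    ext x
    obtain ⟨y, rfl⟩ := Submodule.Quotient.mk_surjective _ x
    constructor
    · intro hx
      have h3 : y ∈ A.range := (Submodule.Quotient.mk_eq_zero _).1 hx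
      obtain ⟨z, rfl⟩ := h3
      exact ⟨Submodule.Quotient.mk z, rfl⟩
    · rintro ⟨z, hz⟩
      obtain ⟨w, rfl⟩ := Submodule.Quotient.mk_surjective _ z
      rw [← hz]
      exact (Submodule.Quotient.mk_eq_zero _).2 ⟨w, rfl⟩
  have h4 := LinearMap.rank_eq_of_surjective hg
  rw [hk, rank_range_of_injective f hf] at h4
  exact h4

lemma cod_of_surjective {A : E →L[ℂ] E} (hA : Function.Surjective A) : cod A = 0 := by
  have h1 : A.range = ⊤ := LinearMap.range_eq_top.2 hA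
  have : Subsingleton (E ⧸ A.range) := Submodule.Quotient.subsingleton_iff.2 h1
  exact rank_subsingleton' ℂ _

lemma good_of_isUnit {A : E →L[ℂ] E} (h : IsUnit A) : Good A 0 := by
  obtain ⟨u, rfl⟩ := h
  refine ⟨⟨_, u.inv_mul⟩, cod_of_surjective fun x => ⟨(↑u⁻¹ : E →L[ℂ] E) x, ?_⟩⟩
  rw [← mul_apply_eq_comp, u.mul_inv]
  rfl

lemma Good.mul {A B : E →L[ℂ] E} {j k : ℕ} (hA : Good A j) (hB : Good B k) :
    Good (A * B) (j + k) := by
  obtain ⟨⟨N, hN⟩, h1⟩ := hA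
  obtain ⟨⟨M, hM⟩, h2⟩ := hB
  refine ⟨⟨M * N, by rw [mul_assoc, ← mul_assoc N, hN, one_mul, hM]⟩, ?_⟩
  rw [cod_mul (injective_of_left hN), h1, h2, Nat.cast_add]

/-- A factor of a good operator that commutes with its cofactor is good. -/
lemma Good.of_mul {A B : E →L[ℂ] E} {k : ℕ} (h : Good (A * B) k) (hc : A * B = B * A) :
    ∃ j, Good A j := by
  obtain ⟨⟨N, hN⟩, h1⟩ := h
  have h2 : N * B * A = 1 := by rw [mul_assoc, ← hc, hN]
  rw [cod_mul (injective_of_left h2)] at h1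
  have h3 : cod A < Cardinal.aleph0 :=
    (self_le_add_right _ _).trans_lt (h1.trans_lt (Cardinal.natCast_lt_aleph0 (n := k)))
  obtain ⟨j, hj⟩ := Cardinal.lt_aleph0.1 h3
  exact ⟨j, ⟨_, h2⟩, hj⟩

lemma Good.unique {A : E →L[ℂ] E} {j k : ℕ} (h : Good A j) (h' : Good A k) : j = k := by
  exact_mod_cast h.2.symm.trans h'.2

lemma Good.ker {A : E →L[ℂ] E} {k : ℕ} (h : Good A k) : A.ker = ⊥ := by
  obtain ⟨⟨N, hN⟩, -⟩ := h
  exact LinearMap.ker_eq_bot.2 (injective_of_left hN)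

lemma Good.finrank {A : E →L[ℂ] E} {k : ℕ} (h : Good A k) :
    Module.finrank ℂ (E ⧸ A.range) = k := Module.finrank_eq_of_rank_eq h.2

lemma Good.isFredholm {A : E →L[ℂ] E} {k : ℕ} (h : Good A k) : A.IsFredholm := by
  have hk := h.ker
  obtain ⟨⟨N, hN⟩, h1⟩ := h
  have hl : Function.LeftInverse N A := fun z => by rw [← mul_apply_eq_comp, hN]; rfl
  have hL : A.HasLeftInverse := ⟨N, hl⟩
  refine ⟨(hl.isEmbedding N.continuous A.continuous).isStrictMap, hL.isClosed_range, ?_, ?_, ?_⟩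
  · rw [hk]
    infer_instance
  · exact Module.finite_of_rank_eq_nat h1
  · rw [hk]
    exact Submodule.closedComplemented_bot

lemma cod_add [CompleteSpace E] {A N B : E →L[ℂ] E} (h : N * A = 1) (hB : ‖B‖ * ‖N‖ < 1) :
    cod (A + B) = cod A := by
  have h1 : IsUnit (1 - -(B * N)) :=
    (Units.oneSub _ (by rw [norm_neg]; exact (norm_mul_le _ _).trans_lt hB)).isUnit
  have h2 : A + B = (1 - -(B * N)) * A := by
    rw [sub_neg_eq_add, add_mul, one_mul, mul_assoc, h, mul_one]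
  obtain ⟨⟨M, hM⟩, h3⟩ := good_of_isUnit h1
  rw [h2, cod_mul (injective_of_left hM), h3]
  simp

/-- The codimension is constant along a connected set of left invertible translates. -/
lemma cod_const [CompleteSpace E] {T : E →L[ℂ] E} {S : Set ℂ} (hS : IsPreconnected S)
    (h : ∀ ν ∈ S, ∃ N : E →L[ℂ] E, N * (T - ν • 1) = 1) {μ ν : ℂ} (hμ : μ ∈ S) (hν : ν ∈ S) :
    cod (T - μ • 1) = cod (T - ν • 1) := by
  refine hS.induction₂' (fun x y => cod (T - x • 1) = cod (T - y • 1)) (fun x hx => ?_)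
    (fun x y z _ _ _ h1 h2 => h1.trans h2) hμ hν
  obtain ⟨N, hN⟩ := h x hx
  have h1 : Tendsto (fun y : ℂ => ‖(x - y) • (1 : E →L[ℂ] E)‖ * ‖N‖) (𝓝 x)
      (𝓝 (‖(x - x) • (1 : E →L[ℂ] E)‖ * ‖N‖)) := Continuous.tendsto (by fun_prop) x
  have h2 := h1.eventually_lt_const (u := 1) (by simp)
  filter_upwards [mem_nhdsWithin_of_mem_nhds h2] with y hy
  have h3 := cod_add hN hy
  have h4 : T - x • 1 + (x - y) • 1 = T - y • (1 : E →L[ℂ] E) := by
    rw [sub_smul]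
    abel
  rw [h4] at h3
  exact ⟨h3.symm, h3⟩

variable {F : Type} [NormedAddCommGroup F] [NormedSpace ℂ F]

lemma Good.conj {A : E →L[ℂ] E} {k : ℕ} (h : Good A k) (e : E ≃L[ℂ] F) :
    Good (e.conjContinuousAlgEquiv A) k := by
  obtain ⟨⟨N, hN⟩, h1⟩ := h
  refine ⟨⟨e.conjContinuousAlgEquiv N, by rw [← map_mul, hN, map_one]⟩, ?_⟩
  rw [← h1]
  refine (Submodule.Quotient.equiv _ _ e.toLinearEquiv ?_).rank_eq.symm
  ext y
  constructor
  · rintro ⟨_, ⟨x, rfl⟩, rfl⟩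
    exact ⟨e x, by simp⟩
  · rintro ⟨x, rfl⟩
    exact ⟨_, ⟨e.symm x, rfl⟩, rfl⟩

/-- a regulariser modulo finite rank operators -/
lemma exists_reg {A : E →L[ℂ] E} (e : E ≃L[ℂ] F) (h : (e.conjContinuousAlgEquiv A).IsFredholm) :
    ∃ B : E →L[ℂ] E, FiniteDimensional ℂ (B * A - 1).range ∧
      FiniteDimensional ℂ (A * B - 1).range := by
  obtain ⟨v, h1, h2⟩ := h.exists_isQuasiInverse
  have h3 := LinearMap.FiniteRangeSetoid.equiv_iff_hasFiniteRange.1 h1
  have h4 := LinearMap.FiniteRangeSetoid.equiv_iff_hasFiniteRange.1 h2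
  have h5 := (h3.comp_right (e : E →ₗ[ℂ] F)).comp_left (e.symm : F →ₗ[ℂ] E)
  have h6 := (h4.comp_right (e : E →ₗ[ℂ] F)).comp_left (e.symm : F →ₗ[ℂ] E)
  refine ⟨e.symm.conjContinuousAlgEquiv v, ?_, ?_⟩
  · have h7 : ((e.symm.conjContinuousAlgEquiv v * A - 1 : E →L[ℂ] E) : E →ₗ[ℂ] E) = _ :=
      LinearMap.ext fun x => (by simp : _ = ((e.symm : F →ₗ[ℂ] E) ∘ₗ ((v : F →ₗ[ℂ] F) ∘ₗ
        (e.conjContinuousAlgEquiv A : F →ₗ[ℂ] F) - LinearMap.id) ∘ₗ (e : E →ₗ[ℂ] F)) x)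
    rw [h7]
    exact (Submodule.fg_iff_finiteDimensional _).1 (LinearMap.hasFiniteRange_iff_range.1 h5)
  · have h7 : ((A * e.symm.conjContinuousAlgEquiv v - 1 : E →L[ℂ] E) : E →ₗ[ℂ] E) = _ :=
      LinearMap.ext fun x => (by simp : _ = ((e.symm : F →ₗ[ℂ] E) ∘ₗ
        ((e.conjContinuousAlgEquiv A : F →ₗ[ℂ] F) ∘ₗ (v : F →ₗ[ℂ] F) - LinearMap.id) ∘ₗ
          (e : E →ₗ[ℂ] F)) x)
    rw [h7]
    exact (Submodule.fg_iff_finiteDimensional _).1 (LinearMap.hasFiniteRange_iff_range.1 h6)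

end general

/-- An operator on a Hilbert space that is bounded below has a left inverse. -/
lemma exists_left {E : Type} [NormedAddCommGroup E] [InnerProductSpace ℂ E] [CompleteSpace E]
    {A : E →L[ℂ] E} {c : ℝ} (hc : 0 < c) (h : ∀ x, c * ‖x‖ ≤ ‖A x‖) :
    ∃ N : E →L[ℂ] E, N * A = 1 ∧ ‖N‖ ≤ c⁻¹ := by
  have h1 : ∀ x, ‖x‖ ≤ c⁻¹ * ‖A x‖ := fun x => by
    rw [le_inv_mul_iff₀ hc]
    exact h x
  have hanti : AntilipschitzWith (⟨c⁻¹, by positivity⟩ : NNReal) A :=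
    A.antilipschitz_of_bound h1
  have hcl : IsClosed (range A) := hanti.isClosed_range A.uniformContinuous
  have : CompleteSpace A.range := hcl.completeSpace_coe
  let e := A.equivRange hanti.injective hcl
  refine ⟨(e.symm : A.range →L[ℂ] E).comp A.range.orthogonalProjectionOnto, ?_, ?_⟩
  · ext x
    have h2 : A.range.orthogonalProjectionOnto (A x) = e x :=
      Subtype.ext (Submodule.starProjection_eq_self_iff.2 ⟨x, rfl⟩)
    change e.symm (A.range.orthogonalProjectionOnto (A x)) = x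
    rw [h2, e.symm_apply_apply]
  · refine ContinuousLinearMap.opNorm_le_bound _ (by positivity) fun y => ?_
    refine (h1 _).trans ?_
    have h2 : A (e.symm (A.range.orthogonalProjectionOnto y)) =
        (A.range.orthogonalProjectionOnto y : E) :=
      congrArg Subtype.val (e.apply_symm_apply (A.range.orthogonalProjectionOnto y))
    have h3 := A.range.norm_orthogonalProjectionOnto_apply_le y
    change c⁻¹ * ‖A (e.symm (A.range.orthogonalProjectionOnto y))‖ ≤ _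
    rw [h2]
    gcongr
    exact h3

/-- The bounds attached to an annular gap in the spectrum. -/
theorem riesz_bounds {A : Type*} [NormedRing A] [NormedAlgebra ℂ A] [CompleteSpace A] {T : A}
    {r ρ : ℝ} (hr : 0 < r) (hrρ : r < ρ)
    (hT : ∀ z : ℂ, r ≤ ‖z‖ → ‖z‖ ≤ ρ → z ∈ resolventSet ℂ T) :
    ∃ (P : A) (K : ℝ), 0 ≤ K ∧ (∀ n : ℕ, ‖P * T ^ (n + 1)‖ ≤ K * r ^ (n + 1)) ∧
      (∀ n : ℕ, ∃ Y : A, ‖Y‖ ≤ K * (ρ ^ (n + 1))⁻¹ ∧ T ^ (n + 1) * Y = P - 1) ∧
      ∀ (S : A) (C : ℝ), (∀ n : ℕ, ∃ N, ‖N‖ ≤ C ∧ T ^ n * S = N * T ^ n) →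
        S * P = P * S * P := by
  have hρ : 0 < ρ := hr.trans hrρ
  have hTr : ∀ z : ℂ, ‖z‖ = r → z ∈ resolventSet ℂ T := fun z hz =>
    hT z hz.ge (hz.le.trans hrρ.le)
  have hTρ : ∀ z : ℂ, ‖z‖ = ρ → z ∈ resolventSet ℂ T := fun z hz =>
    hT z (hrρ.le.trans hz.ge) hz.le
  obtain ⟨K₁, hK₁0, hK₁⟩ := exists_norm_lc_le hr hTr
  obtain ⟨K₂, hK₂0, hK₂⟩ := exists_norm_lc_le hρ hTρ
  have heq := lc_zero_eq hr hrρ.le hT
  set P := lc T r 0 with hP
  have hq0 : 0 ≤ r / ρ := by positivity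
  have hq : r / ρ < 1 := (div_lt_one hρ).2 hrρ
  have hb1 : ∀ n : ℕ, ‖lc T r (n + 1 : ℕ)‖ ≤ K₁ * r ^ (n + 1) := fun n => by
    simpa only [zpow_natCast] using hK₁ (n + 1 : ℕ)
  have hb2 : ∀ n : ℕ, ‖lc T ρ (-(n + 1 : ℕ))‖ ≤ K₂ * (ρ ^ (n + 1))⁻¹ := fun n => by
    simpa only [zpow_neg, zpow_natCast] using hK₂ (-(n + 1 : ℕ))
  refine ⟨P, K₁ + K₂, by positivity, fun n => ?_, fun n => ⟨lc T ρ (-(n + 1 : ℕ)), ?_, ?_⟩,
    fun S K hS => ?_⟩
  · rw [hP, lc_zero_mul_pow hr hTr]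
    exact (hb1 n).trans (by gcongr; linarith)
  · exact (hb2 n).trans (by gcongr; linarith)
  · rw [pow_mul_lc_neg hρ hTρ, heq]
  · have h0 : (P - 1) * S * P = 0 := by
      refine eq_zero_of_norm_le_geometric (c := K₁ * K * K₂) hq0 hq fun n => ?_
      obtain ⟨N, hN1, hN2⟩ := hS (n + 1)
      have h1 : (P - 1) * S * P = lc T ρ (-(n + 1 : ℕ)) * N * lc T r (n + 1 : ℕ) := by
        rw [← pow_mul_lc_zero hr hTr, ← hP, mul_assoc _ N, ← mul_assoc N, ← hN2, ← mul_assoc,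
          ← mul_assoc, lc_neg_mul_pow hρ hTρ, heq]
      have hK0 : 0 ≤ K := (norm_nonneg _).trans hN1
      calc ‖(P - 1) * S * P‖ ≤ ‖lc T ρ (-(n + 1 : ℕ))‖ * ‖N‖ * ‖lc T r (n + 1 : ℕ)‖ := by
            rw [h1]
            exact (norm_mul_le _ _).trans (by gcongr; exact norm_mul_le _ _)
        _ ≤ (K₂ * (ρ ^ (n + 1))⁻¹) * K * (K₁ * r ^ (n + 1)) := by
            gcongr
            · exact hb2 n
            · exact hb1 n
        _ = _ := by rw [div_pow]; ring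
    rw [sub_mul, sub_mul, one_mul, sub_eq_zero] at h0
    exact h0.symm

end Pool.Agent.Lib.MP_0e93e1_an.Ess
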