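import Pool.Agent.Lib.MP_0e93e1_an.Ess.Inf

/-!
The essential spectrum and the index for an automorphism of finite order.
-/

open Metric Set Filter Topology Polynomial
open scoped Real ComplexConjugate InnerProductSpace

noncomputable section

namespace Pool.Agent.Lib.MP_0e93e1_an.Ess

lemma eigen_iterate {φ h : ℂ → ℂ} {ω : ℂ} (hm : MapsTo φ D D)
    (heig : ∀ z ∈ D, h (φ z) = ω * h z) (k : ℕ) {z : ℂ} (hz : z ∈ D) :
    h (φ^[k] z) = ω ^ k * h z := by
  induction k with
  | zero => simp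
  | succ k ih =>
    rw [Function.iterate_succ_apply', heig _ (hm.iterate k hz), ih]
    ring

lemma mob_eigen {l a p : ℂ} (hl : ‖l‖ = 1) (ha : ‖a‖ < 1) (hp : ‖p‖ < 1) (hfix : mob l a p = p)
    {z : ℂ} (hz : z ∈ D) :
    mob 1 p (mob l a z) = -l * (1 - a * conj p) / (1 - conj a * p) * mob 1 p z := by
  have hz' := (mem_D.1 hz).le
  have h1 := mob_sub_mob (l := l) ha hz' hp.le
  have h2 := one_sub_conj_mob hl ha hz' hp.le
  rw [hfix] at h1 h2
  have h3 := den_ne ha hz'
  have h4 := den_ne ha hp.le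
  have h5 := den_ne' ha hp.le
  have h6 := den_ne hp hz'
  have h7 := one_sub_mul_conj_ne ha
  rw [mob, h1, h2, mob]
  generalize 1 - conj a * z = A at *
  generalize 1 - conj a * p = B at *
  generalize 1 - a * conj p = C at *
  generalize 1 - conj p * z = E at *
  generalize 1 - conj a * a = F at *
  field_simp

section setup

variable {l a : ℂ} (hl : ‖l‖ = 1) (ha : ‖a‖ < 1) {ψ : ℂ → ℂ} {T : L2 →L[ℂ] L2}
  (hT : IsWC T ψ (mob l a)) {n : ℕ} (hn : 0 < n) (hid : ∀ z ∈ D, (mob l a)^[n] z = z)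
  (hmin : ∀ m : ℕ, 0 < m → m < n → ∃ z ∈ D, (mob l a)^[m] z ≠ z)
include hl ha hT hn hid hmin

lemma exists_root : ∃ (ω : ℂ) (B : L2 →L[ℂ] L2) (k : ℕ), IsPrimitiveRoot ω n ∧ Good B k ∧
    T * B = ω • (B * T) := by
  have hm := mob_mapsTo hl ha
  obtain ⟨p, hp, hfix⟩ := exists_fixed hl ha
  rcases hp.lt_or_eq with hp | hp
  · obtain ⟨B, -, hB⟩ := exists_mul_mob (l := 1) (a := p) (by simp) hp
    obtain ⟨δ, hδ, hb⟩ := eventually_le_norm_sub (mem_D.2 hp)
    have hb' : ∀ᶠ z in bd, δ / 2 ≤ ‖mob 1 p z‖ := by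
      filter_upwards [hb, eventually_mem_D] with z h1 hz
      have hz' := (mem_D.1 hz).le
      rw [norm_mob (by simp), norm_sub_rev]
      exact div_le_div₀ (norm_nonneg _) h1 (norm_pos_iff.2 (den_ne hp hz')) (norm_den_le hp hz')
    have heig := fun z hz => mob_eigen hl ha hp hfix (z := z) hz
    generalize -l * (1 - a * conj p) / (1 - conj a * p) = ω at heig
    refine ⟨ω, B, _, IsPrimitiveRoot.mk_of_lt _ hn ?_ fun m h1 h2 h3 => ?_,
      good_mul _ hB (differentiableOn_mob hp) (half_pos hδ) hb' rfl,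
      (hT.mul hB hm).unique ((hB.mul hT fun _ hz => hz).smul _) (fun z hz => ?_) fun _ _ => rfl⟩
    · obtain ⟨z, h1, hz⟩ := (hb'.and eventually_mem_D).exists
      have h2 := eigen_iterate hm heig n hz
      rw [hid z hz] at h2
      have h3 : mob 1 p z ≠ 0 := norm_pos_iff.1 ((half_pos hδ).trans_le h1)
      exact mul_right_cancel₀ h3 (by rw [← h2, one_mul])
    · obtain ⟨z, hz, hne⟩ := hmin m h1 h2
      have h4 := eigen_iterate hm heig m hz
      rw [h3, one_mul] at h4
      apply hne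
      rw [← mob_mob (l := 1) (by simp) hp (hm.iterate m hz), h4,
        mob_mob (l := 1) (by simp) hp hz]
    · simp only [heig z hz]
      ring
  · by_cases h : ∃ z ∈ D, mob l a z ≠ z
    · obtain ⟨h, ω, c, M, -, hω, hc, hM, hMh, heig⟩ := hasEigen_boundary hl ha hp hfix h
      have h1 : M e0 = 0 := eq_zero_of_ev fun z hz => by
        have h2 := eigen_iterate hm heig n hz
        rw [hid z hz] at h2
        have h3 : h z = 0 := by
          by_contra h3
          exact hω n hn (mul_right_cancel₀ h3 (by rw [← h2, one_mul]))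
        rw [hMh e0 z hz, h3, zero_mul]
      have h2 := hM e0
      rw [h1, norm_zero] at h2
      exact absurd h2 (not_le.2 (mul_pos hc (norm_pos_iff.2 e0_ne_zero)))
    · obtain rfl : n = 1 := by
        by_contra h1
        exact h (hmin 1 one_pos (by omega))
      exact ⟨1, 1, 0, IsPrimitiveRoot.one, good_of_isUnit isUnit_one, by simp⟩

theorem ess_finite (hψ : DifferentiableOn ℂ ψ D) (μ : ℂ) :
    (IsUnit (rep (T - μ • 1)) →
      ∃ c : ℝ, 0 < c ∧ ∀ᶠ z in bd, c ≤ ‖coc ψ (mob l a) n z - μ ^ n‖) ∧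
    ∀ c : ℝ, 0 < c → (∀ᶠ z in bd, c ≤ ‖coc ψ (mob l a) n z - μ ^ n‖) →
      ∃ j : ℕ, Good (T - μ • 1) j ∧ n * j = nz fun z => coc ψ (mob l a) n z - μ ^ n := by
  have hm := mob_mapsTo hl ha
  obtain ⟨ω, B, k, hω, hB, hTB⟩ := exists_root hl ha hT hn hid hmin
  have hωu : IsUnit (ω • (1 : L2 →L[ℂ] L2)) := by
    rw [← Algebra.algebraMap_eq_smul_one]
    exact (hω.isUnit hn.ne').map _
  have hstep : ∀ i : ℕ,
      (T - (ω ^ (i + 1) * μ) • 1) * B = ω • 1 * B * (T - (ω ^ i * μ) • 1) := by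
    intro i
    simp only [sub_mul, mul_sub, hTB, smul_mul_assoc, mul_smul_comm, one_mul, mul_one, smul_smul]
    congr 2
    ring
  set P : ℕ → (L2 →L[ℂ] L2) := fun i =>
    aeval T (∏ j ∈ Finset.range i, (Polynomial.X - Polynomial.C (ω ^ j * μ))) with hP
  have hP0 : P 0 = 1 := by simp [hP]
  have hP1 : ∀ i, P (i + 1) = P i * (T - (ω ^ i * μ) • 1) := by
    intro i
    simp only [hP]
    rw [Finset.prod_range_succ, map_mul, map_sub, aeval_X, aeval_C, Algebra.algebraMap_eq_smul_one]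
  have hPn : P n = T ^ n - μ ^ n • 1 := by
    simp only [hP]
    rw [← X_pow_sub_C_eq_prod hω hn rfl, map_sub, map_pow, aeval_X, aeval_C,
      Algebra.algebraMap_eq_smul_one]
  have hW : IsWC (T ^ n - μ ^ n • 1) (fun z => coc ψ (mob l a) n z - μ ^ n) (fun z => z) := by
    intro x z hz
    rw [sub_apply, smul_apply, one_apply_eq_self, ev_sub _ _ hz, ev_smul, hT.pow hm n x z hz,
      hid z hz, sub_mul]
    rfl
  refine ⟨fun hu => ?_, fun c hc hb => ?_⟩
  · have h1 : ∀ i : ℕ, IsUnit (rep (T - (ω ^ i * μ) • 1)) := by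
      intro i
      induction i with
      | zero => simpa only [pow_zero, one_mul] using hu
      | succ i ih =>
        obtain ⟨u, hu'⟩ := isUnit_rep_of_good hB
        rw [← Units.isUnit_mul_units _ u, hu', ← map_mul, hstep, map_mul, map_mul]
        exact ((hωu.map rep).mul (isUnit_rep_of_good hB)).mul ih
    have h2 : ∀ i : ℕ, IsUnit (rep (P i)) := by
      intro i
      induction i with
      | zero => rw [hP0, map_one]; exact isUnit_one
      | succ i ih => rw [hP1, map_mul]; exact ih.mul (h1 i)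
    obtain ⟨Y, hY⟩ := (h2 n).exists_right_inv
    rw [hPn] at hY
    refine ⟨(‖Y‖ + 1)⁻¹, by positivity, (bd_of_inv hW hY ?_).mono fun _ h => h.le⟩
    rw [inv_mul_lt_iff₀ (by positivity)]
    linarith
  · have hG := good_mul _ hW
      ((differentiableOn_coc hψ (differentiableOn_mob ha) hm n).sub_const _) hc hb rfl
    have h1 : ∀ i : ℕ, ∃ j, Good (T - (ω ^ i * μ) • 1) j := by
      intro i
      obtain ⟨Q, hQ1, hQ2⟩ := exists_cofactor T (ω ^ i * μ) n
      rw [mul_pow, ← pow_mul, mul_comm i n, pow_mul, hω.pow_eq_one, one_pow, one_mul] at hQ1 hQ2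
      exact Good.of_mul (hQ2 ▸ hG) (hQ2.trans hQ1.symm)
    obtain ⟨j, hj⟩ := h1 0
    have h2 : ∀ i : ℕ, Good (T - (ω ^ i * μ) • 1) j := by
      intro i
      induction i with
      | zero => exact hj
      | succ i ih =>
        obtain ⟨j', hj'⟩ := h1 (i + 1)
        have h3 := hj'.mul hB
        rw [hstep] at h3
        have h4 := h3.unique (((good_of_isUnit hωu).mul hB).mul ih)
        obtain rfl : j' = j := by omega
        exact hj'
    have h3 : ∀ i : ℕ, Good (P i) (i * j) := by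
      intro i
      induction i with
      | zero => rw [hP0, zero_mul]; exact good_of_isUnit isUnit_one
      | succ i ih => rw [hP1, Nat.succ_mul]; exact ih.mul (h2 i)
    rw [pow_zero, one_mul] at hj
    exact ⟨j, hj, (hPn ▸ h3 n).unique hG⟩

end setup

end Pool.Agent.Lib.MP_0e93e1_an.Ess
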