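import Pool.Agent.Lib.MP_0e93e1_an.Ess.Mult

/-!
The essential spectrum and the index for an automorphism of infinite order.
-/

open Metric Set Filter Topology
open scoped Real ComplexConjugate InnerProductSpace

noncomputable section

namespace Pool.Agent.Lib.MP_0e93e1_an.Ess

lemma exists_cofactor {A : Type*} [Ring A] [Algebra ℂ A] (T : A) (ν : ℂ) (n : ℕ) :
    ∃ Q : A, Q * (T - ν • 1) = T ^ n - ν ^ n • 1 ∧ (T - ν • 1) * Q = T ^ n - ν ^ n • 1 := by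
  have hc : Commute T (ν • (1 : A)) := (Commute.one_right T).smul_right ν
  have h1 := hc.geom_sum₂_mul n
  have h2 := hc.mul_geom_sum₂ n
  rw [smul_pow, one_pow] at h1 h2
  exact ⟨_, h1, h2⟩

lemma left_of_pow {T B : L2 →L[ℂ] L2} {ν : ℂ} {n : ℕ} (hB : B * T ^ n = 1)
    (h : ‖ν‖ ^ n * ‖B‖ < 1) : ∃ N : L2 →L[ℂ] L2, N * (T - ν • 1) = 1 := by
  obtain ⟨Q, hQ, -⟩ := exists_cofactor T ν n
  let u := Units.oneSub (ν ^ n • B) (by rwa [norm_smul, norm_pow])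
  have h1 : B * (T ^ n - ν ^ n • 1) = u := by
    rw [mul_sub, hB, mul_smul_comm, mul_one]
    rfl
  exact ⟨↑u⁻¹ * B * Q, by rw [mul_assoc, hQ, mul_assoc, h1, u.inv_mul]⟩

section limits

variable {W : L2 →L[ℂ] L2} {g : ℂ → ℂ} (hW : IsWC W g (fun z => z)) {u : ℂ → ℝ}
  (hu : ∀ z ∈ D, ‖g z‖ = u z)
include hW hu

omit hW in
lemma liminf_eq : liminf u bd = liminf (fun z => ‖g z‖) bd :=
  liminf_congr (eventually_mem_D.mono fun z hz => (hu z hz).symm)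

omit hu in
lemma cobdd : bd.IsCoboundedUnder (· ≥ ·) fun z => ‖g z‖ :=
  IsBoundedUnder.isCoboundedUnder_ge
    ⟨‖W‖, eventually_map.2 (eventually_mem_D.mono fun _ hz => hW.norm_apply_le hz)⟩

omit hW in
lemma ev_lt {c : ℝ} (h : c < liminf u bd) : ∀ᶠ z in bd, c ≤ ‖g z‖ := by
  rw [liminf_eq hu] at h
  exact (eventually_lt_of_lt_liminf h
    ⟨0, eventually_map.2 (Eventually.of_forall fun _ => norm_nonneg _)⟩).mono fun _ h => h.le

lemma le_liminf {c : ℝ} (h : ∀ᶠ z in bd, c ≤ ‖g z‖) : c ≤ liminf u bd := by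
  rw [liminf_eq hu]
  exact le_liminf_of_le (cobdd hW) h

lemma fr_lt {c : ℝ} (h : liminf u bd < c) : ∃ᶠ z in bd, ‖g z‖ ≤ c := by
  rw [liminf_eq hu] at h
  exact (frequently_lt_of_liminf_lt (cobdd hW) h).mono fun _ h => h.le

end limits

/-- the modulus of the normalised cocycle -/
abbrev wn (ψ φ : ℂ → ℂ) (n : ℕ) (z : ℂ) : ℝ := ‖coc ψ φ n z‖ / √‖deriv (φ^[n]) z‖

section setup

variable {l a : ℂ} (hl : ‖l‖ = 1) (ha : ‖a‖ < 1) {ψ : ℂ → ℂ} (hψ : DifferentiableOn ℂ ψ D)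
  {C : ℝ} (hC : ∀ z ∈ D, ‖ψ z‖ ≤ C) {T : L2 →L[ℂ] L2} (hT : IsWC T ψ (mob l a))
include hl ha hψ hC hT

lemma factor (n : ℕ) :
    ∃ (W V V' : L2 →L[ℂ] L2) (g : ℂ → ℂ), DifferentiableOn ℂ g D ∧ IsWC W g (fun z => z) ∧
      ‖V‖ ≤ 1 ∧ ‖V'‖ ≤ 1 ∧ V * V' = 1 ∧ V' * V = 1 ∧ T ^ n = W * V ∧
      ∀ z ∈ D, ‖g z‖ = wn ψ (mob l a) n z := by
  obtain ⟨T', hT', hfac⟩ := exists_factor hl ha hψ hC
  obtain rfl : T = T' := hT.unique hT' (fun _ _ => rfl) (fun _ _ => rfl)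
  exact hfac n

lemma liminf_nonneg (n : ℕ) : 0 ≤ liminf (wn ψ (mob l a) n) bd := by
  obtain ⟨W, V, V', g, -, hW, -, -, -, -, -, hgn⟩ := factor hl ha hψ hC hT n
  exact le_liminf hW hgn (Eventually.of_forall fun _ => norm_nonneg _)

lemma left_pow (n : ℕ) {c : ℝ} (hc : 0 < c) (h : c < liminf (wn ψ (mob l a) n) bd) :
    ∃ B : L2 →L[ℂ] L2, B * T ^ n = 1 ∧ ‖B‖ ≤ c⁻¹ := by
  obtain ⟨W, V, V', g, -, hW, -, hV', -, hV'V, hTn, hgn⟩ := factor hl ha hψ hC hT n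
  obtain ⟨N, hN1, hN2⟩ := left_of_bd hW hc (ev_lt hgn h)
  refine ⟨V' * N, by rw [hTn, mul_assoc, ← mul_assoc N, hN1, one_mul, hV'V], ?_⟩
  exact (norm_mul_le _ _).trans ((mul_le_of_le_one_left (norm_nonneg _) hV').trans hN2)

lemma isUnit_rep_of_pos {n : ℕ} (hn : 0 < n) (h : 0 < liminf (wn ψ (mob l a) n) bd) :
    IsUnit (rep T) := by
  obtain ⟨W, V, V', g, hg, hW, -, -, hVV', hV'V, hTn, hgn⟩ := factor hl ha hψ hC hT n
  have h1 := isUnit_rep_of_good (good_mul _ hW hg (half_pos h) (ev_lt hgn (half_lt_self h)) rfl)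
  have h2 : IsUnit V := ⟨⟨V, V', hVV', hV'V⟩, rfl⟩
  refine (isUnit_pow_iff hn.ne').1 ?_
  rw [← map_pow, hTn, map_mul]
  exact h1.mul (h2.map rep)

lemma ess_radii : ∃ μ₁ ∈ spectrum ℂ (rep T), ∃ μ₂ ∈ spectrum ℂ (rep T),
    Tendsto (fun n : ℕ => (liminf (wn ψ (mob l a) n) bd) ^ (1 / n : ℝ)) atTop (𝓝 ‖μ₁‖) ∧
    Tendsto (fun n : ℕ => (⨆ z : D, wn ψ (mob l a) n z) ^ (1 / n : ℝ)) atTop (𝓝 ‖μ₂‖) := by
  obtain ⟨μ₂, hμ₂, -, hlim₂⟩ := gelfand_real (rep T)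
  have hsup : ∀ n : ℕ, ‖rep T ^ n‖ = ⨆ z : D, wn ψ (mob l a) n z := by
    intro n
    obtain ⟨W, V, V', g, hg, hW, hV, hV', hVV', -, hTn, hgn⟩ := factor hl ha hψ hC hT n
    have h1 : ‖rep T ^ n‖ = ‖W‖ := by
      refine le_antisymm ?_ ((norm_le_norm_rep hW).trans ?_)
      · rw [← map_pow, hTn]
        exact (norm_rep_le _).trans
          ((norm_mul_le _ _).trans (mul_le_of_le_one_right (norm_nonneg _) hV))
      · have : W = T ^ n * V' := by rw [hTn, mul_assoc, hVV', mul_one]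
        rw [this, map_mul, map_pow]
        exact (norm_mul_le _ _).trans
          (mul_le_of_le_one_right (norm_nonneg _) ((norm_rep_le _).trans hV'))
    rw [h1, hW.norm_eq_iSup hg]
    exact iSup_congr fun z => hgn z z.2
  simp_rw [hsup] at hlim₂
  by_cases hu : IsUnit (rep T)
  · obtain ⟨u, hu⟩ := hu
    obtain ⟨ν₀, hν₀, -, hlim₁⟩ := gelfand_real (↑u⁻¹ : X →L[ℂ] X)
    have hν0 : ν₀ ≠ 0 := spectrum.ne_zero_of_mem_of_unit hν₀
    refine ⟨ν₀⁻¹, hu ▸ spectrum.inv₀_mem hν₀, μ₂, hμ₂, ?_, hlim₂⟩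
    have hinf : ∀ n : ℕ, liminf (wn ψ (mob l a) n) bd = ‖(↑u⁻¹ : X →L[ℂ] X) ^ n‖⁻¹ := by
      intro n
      have e1 : rep T ^ n * (↑u⁻¹ : X →L[ℂ] X) ^ n = 1 := by
        rw [← hu, ← Units.val_pow_eq_pow_val, ← Units.val_pow_eq_pow_val, ← Units.val_mul,
          inv_pow, mul_inv_cancel, Units.val_one]
      have hpos : 0 < ‖(↑u⁻¹ : X →L[ℂ] X) ^ n‖ := by
        rw [norm_pos_iff]
        intro h0
        rw [h0, mul_zero] at e1
        exact zero_ne_one e1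
      refine le_antisymm (le_of_forall_lt_imp_le_of_dense fun c hc => ?_)
        (le_of_forall_lt_imp_le_of_dense fun c hc => ?_)
      · rcases le_or_gt c 0 with h0 | h0
        · exact h0.trans (inv_pos.2 hpos).le
        obtain ⟨B, hB1, hB2⟩ := left_pow hl ha hψ hC hT n h0 hc
        have h1 : (↑u⁻¹ : X →L[ℂ] X) ^ n = rep B := by
          rw [← one_mul ((↑u⁻¹ : X →L[ℂ] X) ^ n), ← map_one rep, ← hB1, map_mul, map_pow,
            mul_assoc, e1, mul_one]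
        rw [h1] at hpos ⊢
        exact le_inv_of_le_inv₀ hpos ((norm_rep_le _).trans hB2)
      · rcases le_or_gt c 0 with h0 | h0
        · exact h0.trans (liminf_nonneg hl ha hψ hC hT n)
        obtain ⟨W, V, V', g, -, hW, hV, -, -, -, hTn, hgn⟩ := factor hl ha hψ hC hT n
        have h1 : rep W * (rep V * (↑u⁻¹ : X →L[ℂ] X) ^ n) = 1 := by
          rw [← mul_assoc, ← map_mul, ← hTn, map_pow, e1]
        have h2 : ‖rep V * (↑u⁻¹ : X →L[ℂ] X) ^ n‖ ≤ ‖(↑u⁻¹ : X →L[ℂ] X) ^ n‖ :=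
          (norm_mul_le _ _).trans
            (mul_le_of_le_one_left (norm_nonneg _) ((norm_rep_le _).trans hV))
        refine le_liminf hW hgn ((bd_of_inv hW h1 ?_).mono fun _ h => h.le)
        calc c * ‖rep V * (↑u⁻¹ : X →L[ℂ] X) ^ n‖ ≤ c * ‖(↑u⁻¹ : X →L[ℂ] X) ^ n‖ := by gcongr
          _ < ‖(↑u⁻¹ : X →L[ℂ] X) ^ n‖⁻¹ * ‖(↑u⁻¹ : X →L[ℂ] X) ^ n‖ := by gcongr
          _ = 1 := inv_mul_cancel₀ hpos.ne'
    simp_rw [hinf, Real.inv_rpow (norm_nonneg _), norm_inv]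
    exact hlim₁.inv₀ (norm_ne_zero_iff.2 hν0)
  · refine ⟨0, (spectrum.zero_mem_iff ℂ).2 hu, μ₂, hμ₂, ?_, hlim₂⟩
    rw [norm_zero]
    refine tendsto_const_nhds.congr' ?_
    filter_upwards [eventually_gt_atTop 0] with n hn
    have h0 : liminf (wn ψ (mob l a) n) bd = 0 :=
      le_antisymm (not_lt.1 fun hpos => hu (isUnit_rep_of_pos hl ha hψ hC hT hn hpos))
        (liminf_nonneg hl ha hψ hC hT n)
    rw [h0, Real.zero_rpow (by positivity)]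

omit hψ hC in
lemma rotation_ess (hinf : ∀ n : ℕ, 0 < n → ∃ z ∈ D, (mob l a)^[n] z ≠ z) {μ ν : ℂ}
    (hμ : μ ∈ spectrum ℂ (rep T)) (hν : ‖ν‖ = ‖μ‖) : ν ∈ spectrum ℂ (rep T) := by
  obtain ⟨h, ω, c, M, hω, hn, hc, hM, hMh, heig⟩ := hasEigen hl ha hinf
  obtain ⟨N, hN1, hN2⟩ := exists_left hc hM
  have h1 : T * M = ω • (M * T) := by
    refine (hT.mul hMh (mob_mapsTo hl ha)).unique ((hMh.mul hT (fun _ hz => hz)).smul ω)
      (fun z hz => ?_) (fun _ _ => rfl)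
    simp only [heig z hz]
    ring
  refine rotation_invariant (M := rep M) hω hn hc (fun x => ?_) ?_ hμ hν
  · have h2 := (rep N).le_of_opNorm_le ((norm_rep_le N).trans hN2) (rep M x)
    rw [← mul_apply_eq_comp, ← map_mul, hN1, map_one] at h2
    rw [← le_inv_mul_iff₀ hc]
    exact h2
  · rw [← map_mul, h1, map_smul, map_mul]

lemma no_gap_ess {r₀ R r ρ : ℝ} (hr : 0 < r) (hrρ : r < ρ) (hr₀ : r₀ < r) (hR : ρ ≤ R)
    (h₁ : Tendsto (fun n : ℕ => (liminf (wn ψ (mob l a) n) bd) ^ (1 / n : ℝ)) atTop (𝓝 r₀))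
    (h₂ : Tendsto (fun n : ℕ => (⨆ z : D, wn ψ (mob l a) n z) ^ (1 / n : ℝ)) atTop (𝓝 R))
    (hres : ∀ z : ℂ, r ≤ ‖z‖ → ‖z‖ ≤ ρ → z ∈ resolventSet ℂ (rep T)) : False := by
  obtain ⟨P, K, hK, hP1, hP2, hP3⟩ := riesz_bounds hr hrρ hres
  have hm := mob_mapsTo hl ha
  obtain ⟨s, hrs, hsρ⟩ := exists_between hrρ
  have hs : 0 < s := hr.trans hrs
  have hρ : 0 < ρ := hs.trans hsρ
  have e1 := h₁.eventually_lt_const (hr₀.trans hrs)
  have e2 := h₂.eventually_const_lt (hsρ.trans_le hR)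
  have e3 : Tendsto (fun n : ℕ => K * ‖P‖ * (r / s) ^ n + K * (s / ρ) ^ n) atTop
      (𝓝 (K * ‖P‖ * 0 + K * 0)) :=
    ((tendsto_pow_atTop_nhds_zero_of_lt_one (by positivity) ((div_lt_one hs).2 hrs)).const_mul
      _).add ((tendsto_pow_atTop_nhds_zero_of_lt_one (by positivity)
        ((div_lt_one hρ).2 hsρ)).const_mul _)
  have e4 := e3.eventually_lt_const (u := 1) (by simp)
  obtain ⟨n, ⟨⟨a1, a2⟩, a3⟩, a4⟩ := (((e1.and e2).and e4).and (eventually_gt_atTop 0)).exists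
  obtain ⟨n, rfl⟩ : ∃ k, n = k + 1 := ⟨n - 1, by omega⟩
  obtain ⟨W, V, V', g, hg, hW, hV, hV', hVV', -, hTn, hgn⟩ := factor hl ha hψ hC hT (n + 1)
  have hsup : ‖W‖ = ⨆ z : D, wn ψ (mob l a) (n + 1) z := by
    rw [hW.norm_eq_iSup hg]
    exact iSup_congr fun z => hgn z z.2
  have hn0 : (0 : ℝ) < (n + 1 : ℕ) := by positivity
  rw [one_div, Real.rpow_inv_lt_iff_of_pos (liminf_nonneg hl ha hψ hC hT _) hs.le hn0,
    Real.rpow_natCast] at a1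
  rw [one_div, ← hsup, Real.lt_rpow_inv_iff_of_pos hs.le (norm_nonneg _) hn0,
    Real.rpow_natCast] at a2
  have hsn : 0 < s ^ (n + 1) := by positivity
  have f1 := fr_lt hW hgn a1
  have f2 : ∃ᶠ z in bd, s ^ (n + 1) ≤ ‖g z‖ := by
    intro h
    exact a2.not_ge (norm_le_of_bd hW hsn.le (h.mono fun z hz => (not_le.1 hz).le))
  have f3 : ∃ᶠ z in bd, g z ∈ sphere (0 : ℂ) (s ^ (n + 1)) :=
    (frequently_eq hg.continuousOn.norm f1 f2).mono fun z hz => mem_sphere_zero_iff_norm.2 hz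
  obtain ⟨γ, hγ, Φ, hΦ, hΦ1, hΦW⟩ := exists_state hW isClosed_sphere f3
  rw [mem_sphere_zero_iff_norm] at hγ
  have hΦo : ∀ A : X →L[ℂ] X, ‖Φ (A one)‖ ≤ ‖A‖ := fun A =>
    (hΦ _).trans ((A.le_opNorm _).trans (mul_le_of_le_one_right (norm_nonneg _) norm_one_le))
  have c1 : rep W * P = P * rep W * P := by
    refine hP3 _ ‖W‖ fun k => ?_
    obtain ⟨N, hN1, hN2⟩ := exists_mul (g := fun z => g ((mob l a)^[k] z))
      (hg.comp (differentiableOn_iterate (differentiableOn_mob ha) hm k) (hm.iterate k))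
      (C := ‖W‖) fun z hz => hW.norm_apply_le (hm.iterate k hz)
    refine ⟨rep N, (norm_rep_le _).trans hN1, ?_⟩
    rw [← map_pow, ← map_mul, ← map_mul]
    congr 1
    exact ((hT.pow hm k).mul hW (hm.iterate k)).unique
      (hN2.mul (hT.pow hm k) (fun _ hz => hz)) (fun z _ => mul_comm _ _) (fun _ _ => rfl)
  have c2 : rep W = rep T ^ (n + 1) * rep V' := by
    rw [← map_pow, ← map_mul, hTn, mul_assoc, hVV', mul_one]
  have c3 : s ^ (n + 1) * ‖Φ (P one)‖ ≤ K * r ^ (n + 1) * ‖P‖ := by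
    rw [← hγ, ← norm_mul, ← hΦW, ← mul_apply_eq_comp, c1, c2, ← mul_assoc]
    refine (hΦo _).trans ((norm_mul_le _ _).trans ?_)
    gcongr
    exact (norm_mul_le _ _).trans
      ((mul_le_of_le_one_right (norm_nonneg _) ((norm_rep_le _).trans hV')).trans (hP1 n))
  obtain ⟨Y, hY1, hY2⟩ := hP2 n
  have c4 : ‖Φ (P one) - 1‖ ≤ s ^ (n + 1) * (K * (ρ ^ (n + 1))⁻¹) := by
    have d1 : Φ (P one) - 1 = γ * Φ ((rep V * Y) one) := by
      rw [← hΦW, ← mul_apply_eq_comp, ← mul_assoc, ← map_mul, ← hTn, map_pow, hY2, sub_apply,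
        map_sub, ← hΦ1]
      rfl
    rw [d1, norm_mul, hγ]
    gcongr
    exact (hΦo _).trans ((norm_mul_le _ _).trans
      ((mul_le_of_le_one_left (norm_nonneg _) ((norm_rep_le _).trans hV)).trans hY1))
  have c5 : ‖Φ (P one)‖ ≤ K * ‖P‖ * (r / s) ^ (n + 1) := by
    rw [div_pow, ← mul_div_assoc, le_div_iff₀ hsn]
    linarith
  have c6 : s ^ (n + 1) * (K * (ρ ^ (n + 1))⁻¹) = K * (s / ρ) ^ (n + 1) := by
    rw [div_pow]
    ring
  have c7 := norm_sub_norm_le (1 : ℂ) (Φ (P one))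
  rw [norm_one, norm_sub_rev] at c7
  linarith

theorem ess_infinite (hinf : ∀ n : ℕ, 0 < n → ∃ z ∈ D, (mob l a)^[n] z ≠ z) :
    ∃ r R : ℝ,
      Tendsto (fun n : ℕ => (liminf (wn ψ (mob l a) n) bd) ^ (1 / n : ℝ)) atTop (𝓝 r) ∧
      Tendsto (fun n : ℕ => (⨆ z : D, wn ψ (mob l a) n z) ^ (1 / n : ℝ)) atTop (𝓝 R) ∧
      ∀ μ : ℂ, (‖μ‖ < r → Good (T - μ • 1) (nz ψ)) ∧ (R < ‖μ‖ → Good (T - μ • 1) 0) ∧
        (r ≤ ‖μ‖ → ‖μ‖ ≤ R → ¬ IsUnit (rep (T - μ • 1))) := by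
  obtain ⟨μ₁, hμ₁, μ₂, hμ₂, hlim₁, hlim₂⟩ := ess_radii hl ha hψ hC hT
  refine ⟨_, _, hlim₁, hlim₂, fun μ => ⟨fun hμ => ?_, fun hμ => ?_, fun h1 h2 hu => ?_⟩⟩
  · have hpow : ∀ ν : ℂ, ‖ν‖ < ‖μ₁‖ →
        ∃ n : ℕ, 0 < n ∧ ‖ν‖ ^ n < liminf (wn ψ (mob l a) n) bd := by
      intro ν hν
      obtain ⟨n, h1, h2⟩ := ((hlim₁.eventually_const_lt hν).and (eventually_gt_atTop 0)).exists
      rw [one_div, Real.lt_rpow_inv_iff_of_pos (norm_nonneg _) (liminf_nonneg hl ha hψ hC hT _)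
        (by positivity), Real.rpow_natCast] at h1
      exact ⟨n, h2, h1⟩
    have hleft : ∀ ν ∈ ball (0 : ℂ) ‖μ₁‖, ∃ N : L2 →L[ℂ] L2, N * (T - ν • 1) = 1 := by
      intro ν hν
      obtain ⟨n, -, h1⟩ := hpow ν (mem_ball_zero_iff.1 hν)
      obtain ⟨c, h2, h3⟩ := exists_between h1
      have hc : 0 < c := lt_of_le_of_lt (by positivity) h2
      obtain ⟨B, hB1, hB2⟩ := left_pow hl ha hψ hC hT n hc h3
      refine left_of_pow hB1 ?_
      calc ‖ν‖ ^ n * ‖B‖ ≤ ‖ν‖ ^ n * c⁻¹ := by gcongr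
        _ < c * c⁻¹ := by gcongr
        _ = 1 := mul_inv_cancel₀ hc.ne'
    have hμ' : μ ∈ ball (0 : ℂ) ‖μ₁‖ := mem_ball_zero_iff.2 hμ
    have h0 : (0 : ℂ) ∈ ball (0 : ℂ) ‖μ₁‖ := mem_ball_self ((norm_nonneg _).trans_lt hμ)
    refine ⟨hleft μ hμ', ?_⟩
    rw [cod_const (convex_ball _ _).isPreconnected hleft hμ' h0, zero_smul, sub_zero]
    obtain ⟨n, hn, h1⟩ := hpow μ hμ
    have hu := isUnit_rep_of_pos hl ha hψ hC hT hn (lt_of_le_of_lt (by positivity) h1)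
    obtain ⟨U, U', -, -, hUU', hU'U, hU⟩ := exists_unitary hl ha
    obtain ⟨S, -, hS⟩ := exists_mul (g := fun z => (sk a z)⁻¹)
      ((differentiableOn_sk ha).inv fun z hz => sk_ne_zero ha hz) fun z hz => norm_sk_inv_le ha hz
    obtain ⟨S', -, hS'⟩ := exists_mul (differentiableOn_sk ha)
      (C := √(1 - ‖a‖ ^ 2) / (1 - ‖a‖)) fun z hz => by
        rw [sk, norm_div, Complex.norm_real, Real.norm_of_nonneg (Real.sqrt_nonneg _)]
        gcongr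
        exact norm_den_ge (mem_D.1 hz).le
    have hSu : IsUnit S := ⟨⟨S, S',
      (hS.mul hS' fun _ hz => hz).unique isWC_one
        (fun z hz => inv_mul_cancel₀ (sk_ne_zero ha hz)) (fun _ _ => rfl),
      (hS'.mul hS fun _ hz => hz).unique isWC_one
        (fun z hz => mul_inv_cancel₀ (sk_ne_zero ha hz)) (fun _ _ => rfl)⟩, rfl⟩
    have hUu : IsUnit U := ⟨⟨U, U', hUU', hU'U⟩, rfl⟩
    obtain ⟨v, hv⟩ := hSu.mul hUu
    obtain ⟨M, -, hM⟩ := exists_mul hψ hC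
    have hTM : T = M * v := by
      rw [hv]
      exact hT.unique (hM.mul (hS.mul hU fun _ hz => hz) fun _ hz => hz)
        (fun z hz => by simp [inv_mul_cancel₀ (sk_ne_zero ha hz)]) (fun _ _ => rfl)
    have hMu : IsUnit (rep M) := by
      have : M = T * ↑v⁻¹ := by rw [hTM, mul_assoc, v.mul_inv, mul_one]
      rw [this, map_mul]
      exact hu.mul (v⁻¹.isUnit.map rep)
    obtain ⟨Y, hY⟩ := hMu.exists_right_inv
    have hb := bd_of_inv hM hY (c := (‖Y‖ + 1)⁻¹) (by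
      rw [inv_mul_lt_iff₀ (by positivity)]
      linarith)
    have h2 := (good_mul _ hM hψ (by positivity) (hb.mono fun _ h => h.le) rfl).mul
      (good_of_isUnit v.isUnit)
    rw [hTM]
    exact h2.2
  · obtain ⟨ν₁, -, ν₂, -, hb, -, hlim⟩ := exists_radii hl ha hψ hC hT
    have h1 : ‖ν₂‖ = ‖μ₂‖ := tendsto_nhds_unique hlim hlim₂
    have h2 : μ ∉ spectrum ℂ T := fun h => by linarith [(hb μ h).2]
    have h3 := (spectrum.notMem_iff.1 h2).neg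
    rw [neg_sub, Algebra.algebraMap_eq_smul_one] at h3
    exact good_of_isUnit h3
  · have hμ : μ ∉ spectrum ℂ (rep T) := by
      rw [spectrum.notMem_iff, Algebra.algebraMap_eq_smul_one, ← neg_sub]
      rw [map_sub, map_smul, map_one] at hu
      exact hu.neg
    have h3 : ‖μ₁‖ < ‖μ‖ :=
      lt_of_le_of_ne h1 fun h => hμ (rotation_ess hl ha hT hinf hμ₁ h.symm)
    have h4 : ((‖μ‖ : ℝ) : ℂ) ∈ resolventSet ℂ (rep T) := by
      by_contra h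
      exact hμ (rotation_ess hl ha hT hinf h (by simp))
    obtain ⟨ε, hε, hball⟩ :=
      Metric.isOpen_iff.1 (spectrum.isOpen_resolventSet (𝕜 := ℂ) (rep T)) _ h4
    have h5 : ‖μ‖ - ε < ‖μ‖ := sub_lt_self _ hε
    obtain ⟨r, hr1, hr2⟩ := exists_between (max_lt h3 h5)
    have hr3 : ‖μ₁‖ < r := (le_max_left _ _).trans_lt hr1
    have hr4 : ‖μ‖ - ε < r := (le_max_right _ _).trans_lt hr1
    refine no_gap_ess hl ha hψ hC hT ((norm_nonneg _).trans_lt hr3) hr2 hr3 h2 hlim₁ hlim₂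
      fun z hz1 hz2 => ?_
    by_contra h
    have h6 : ((‖z‖ : ℝ) : ℂ) ∈ spectrum ℂ (rep T) := rotation_ess hl ha hT hinf h (by simp)
    refine h6 (hball ?_)
    rw [mem_ball, dist_eq_norm, ← Complex.ofReal_sub, Complex.norm_real, Real.norm_eq_abs, abs_lt]
    constructor <;> linarith

end setup

end Pool.Agent.Lib.MP_0e93e1_an.Ess
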