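import Pool.Agent.Lib.MP_0e93e1_an.Ess.State

/-!
Multipliers: estimates from the behaviour near the circle, and the codimension of the range.
-/

open Metric Set Filter Topology
open scoped Real ComplexConjugate InnerProductSpace

noncomputable section

namespace Pool.Agent.Lib.MP_0e93e1_an.Ess

lemma av_le_of_sphere {F G : ℂ → ℂ} (hF : ContinuousOn F D) (hG : ContinuousOn G D) {c r : ℝ}
    (hr0 : 0 ≤ r) (hr : r < 1) (h : ∀ z : ℂ, ‖z‖ = r → ‖F z‖ ≤ c * ‖G z‖) :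
    av F r ≤ c ^ 2 * av G r := by
  have h1 : c ^ 2 * av G r = Real.circleAverage (fun z => c ^ 2 * ‖G z‖ ^ 2) 0 r := by
    rw [av, ← smul_eq_mul, ← Real.circleAverage_fun_smul]
    rfl
  rw [h1, av]
  refine Real.circleAverage_mono (circleIntegrable_sq hF hr0 hr) ?_ ?_
  · exact (circleIntegrable_sq hG hr0 hr).const_smul (a := c ^ 2)
  · intro z hz
    rw [mem_sphere_zero_iff_norm, abs_of_nonneg hr0] at hz
    rw [← mul_pow]
    exact pow_le_pow_left₀ (norm_nonneg _) (h z hz) 2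

lemma norm_le_of_ev {x y : L2} {c : ℝ} (hc : 0 ≤ c)
    (h : ∀ᶠ z in bd, ‖ev x z‖ ≤ c * ‖ev y z‖) : ‖x‖ ≤ c * ‖y‖ := by
  obtain ⟨s, hs0, hs, h⟩ := eventually_bd.1 h
  have h1 : ‖x‖ ^ 2 ≤ c ^ 2 * ‖y‖ ^ 2 := by
    refine le_of_tendsto_of_tendsto (tendsto_av_ev x) ((tendsto_av_ev y).const_mul _) ?_
    filter_upwards [Ioo_mem_nhdsLT hs] with r hr
    exact av_le_of_sphere (continuousOn_ev x) (continuousOn_ev y) (hs0.trans hr.1).le hr.2
      fun z hz => h z (hz ▸ hr.1) (hz ▸ hr.2)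
  rw [← mul_pow] at h1
  exact (pow_le_pow_iff_left₀ (norm_nonneg _) (by positivity) two_ne_zero).1 h1

lemma norm_le_of_bd {W : L2 →L[ℂ] L2} {g : ℂ → ℂ} (hW : IsWC W g (fun z => z)) {c : ℝ}
    (hc : 0 ≤ c) (h : ∀ᶠ z in bd, ‖g z‖ ≤ c) : ‖W‖ ≤ c := by
  refine W.opNorm_le_bound hc fun x => norm_le_of_ev hc ?_
  filter_upwards [h, eventually_mem_D] with z h1 h2
  rw [hW x z h2, norm_mul]
  gcongr

lemma left_of_bd {W : L2 →L[ℂ] L2} {g : ℂ → ℂ} (hW : IsWC W g (fun z => z)) {c : ℝ}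
    (hc : 0 < c) (h : ∀ᶠ z in bd, c ≤ ‖g z‖) : ∃ N : L2 →L[ℂ] L2, N * W = 1 ∧ ‖N‖ ≤ c⁻¹ := by
  refine exists_left hc fun x => ?_
  rw [← le_inv_mul_iff₀ hc]
  refine norm_le_of_ev (by positivity) ?_
  filter_upwards [h, eventually_mem_D] with z h1 h2
  rw [hW x z h2, norm_mul, le_inv_mul_iff₀ hc]
  gcongr

lemma bdd_of_bd {F : ℂ → ℂ} (hF : ContinuousOn F D) {c : ℝ} (h : ∀ᶠ z in bd, ‖F z‖ ≤ c) :
    ∃ K, ∀ z ∈ D, ‖F z‖ ≤ K := by
  obtain ⟨s, -, hs, h⟩ := eventually_bd.1 h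
  obtain ⟨K, hK⟩ := (isCompact_closedBall (0 : ℂ) s).exists_bound_of_continuousOn
    (hF.mono (closedBall_subset_ball hs))
  refine ⟨max K c, fun z hz => ?_⟩
  rcases le_or_gt ‖z‖ s with h1 | h1
  · exact (hK z (mem_closedBall_zero_iff.2 h1)).trans (le_max_left _ _)
  · exact (h z h1 (mem_D.1 hz)).trans (le_max_right _ _)

lemma exists_div {F : ℂ → ℂ} (hF : DifferentiableOn ℂ F D) {y : L2} {c : ℝ} (hc : 0 ≤ c)
    (h : ∀ᶠ z in bd, ‖F z‖ ≤ c * ‖ev y z‖) : ∃ x : L2, ∀ z ∈ D, ev x z = F z := by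
  obtain ⟨s, hs0, hs, h⟩ := eventually_bd.1 h
  obtain ⟨K, hK⟩ := (isCompact_closedBall (0 : ℂ) s).exists_bound_of_continuousOn
    (hF.continuousOn.mono (closedBall_subset_ball hs))
  have hK0 : 0 ≤ K := (norm_nonneg _).trans (hK 0 (mem_closedBall_self hs0.le))
  have h1 : 0 ≤ K * ‖e0‖ := by positivity
  have h2 : 0 ≤ c * ‖y‖ := by positivity
  obtain ⟨x, -, hx⟩ := exists_of_av_le hF (C := K * ‖e0‖ + c * ‖y‖) (by positivity) fun r hr => by
    rcases le_or_gt r s with h3 | h3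
    · have h4 := av_le_of_sphere (c := K) hF.continuousOn (continuousOn_ev e0) hr.1.le hr.2
        fun z hz => by
          rw [ev_e0, norm_one, mul_one]
          exact hK z (mem_closedBall_zero_iff.2 (hz ▸ h3))
      have h5 := mul_le_mul_of_nonneg_left (av_ev_le e0 hr.1.le hr.2) (sq_nonneg K)
      nlinarith
    · have h4 := av_le_of_sphere (c := c) hF.continuousOn (continuousOn_ev y) hr.1.le hr.2
        fun z hz => h z (hz ▸ h3) (hz ▸ hr.2)
      have h5 := mul_le_mul_of_nonneg_left (av_ev_le y hr.1.le hr.2) (sq_nonneg c)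
      nlinarith
  exact ⟨x, hx⟩

lemma eventually_le_norm_sub {a : ℂ} (ha : a ∈ D) :
    ∃ δ : ℝ, 0 < δ ∧ ∀ᶠ z in bd, δ ≤ ‖z - a‖ := by
  have ha' := mem_D.1 ha
  refine ⟨(1 - ‖a‖) / 2, by linarith, eventually_bd.2 ⟨(1 + ‖a‖) / 2, by positivity, by linarith,
    fun z h1 _ => ?_⟩⟩
  linarith [norm_sub_norm_le z a]

lemma mul_dslope {g : ℂ → ℂ} {a : ℂ} (h : g a = 0) (z : ℂ) : (z - a) * dslope g a z = g z := by
  have := sub_smul_dslope g a z
  rwa [h, sub_zero, smul_eq_mul] at this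

lemma good_lin {a : ℂ} (ha : a ∈ D) :
    ∃ S : L2 →L[ℂ] L2, IsWC S (fun z => z - a) (fun z => z) ∧ Good S 1 := by
  obtain ⟨S, -, hS⟩ := exists_mul (g := fun z => z - a) (by fun_prop) (C := 2) fun z hz => by
    linarith [norm_sub_le z a, mem_D.1 hz, mem_D.1 ha]
  obtain ⟨δ, hδ, hb⟩ := eventually_le_norm_sub ha
  obtain ⟨N, hN, -⟩ := left_of_bd hS hδ hb
  refine ⟨S, hS, ⟨N, hN⟩, ?_⟩
  have h1 : S.range = (evL a ha).ker := by
    ext x
    constructor
    · rintro ⟨y, rfl⟩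
      exact (hS y a ha).trans (by simp)
    · intro hx
      have hx' : ev x a = 0 := hx
      obtain ⟨y, hy⟩ := exists_div
        ((Complex.differentiableOn_dslope (isOpen_ball.mem_nhds ha)).2 (differentiableOn_ev x))
        (y := x) (c := δ⁻¹) (by positivity) (by
          filter_upwards [hb] with z hz
          rw [le_inv_mul_iff₀ hδ, ← mul_dslope hx' z, norm_mul]
          gcongr)
      refine ⟨y, ext_ev fun z hz => ?_⟩
      exact (hS y z hz).trans (by rw [hy z hz, mul_dslope hx'])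
  have h2 : Function.Surjective ((evL a ha : L2 →L[ℂ] ℂ) : L2 →ₗ[ℂ] ℂ) := fun c =>
    ⟨c • e0, by simp⟩
  rw [cod, h1, (LinearMap.quotKerEquivOfSurjective _ h2).rank_eq]
  simp

/-- the number of zeros in the disc, with multiplicity -/
def nz (g : ℂ → ℂ) : ℕ := ∑ᶠ z ∈ D, analyticOrderNatAt g z

section

variable {g : ℂ → ℂ} (hg : DifferentiableOn ℂ g D) {c : ℝ} (hc : 0 < c)
  (hb : ∀ᶠ z in bd, c ≤ ‖g z‖)
include hg hc hb

lemma not_frequently_zero {z : ℂ} (hz : z ∈ D) : ¬ ∃ᶠ w in 𝓝[≠] z, g w = 0 := by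
  intro h
  have h1 := (hg.analyticOnNhd isOpen_ball).eqOn_zero_of_preconnected_of_frequently_eq_zero
    (convex_ball (0 : ℂ) 1).isPreconnected hz h
  obtain ⟨w, hw1, hw2⟩ := (hb.and eventually_mem_D).exists
  rw [h1 hw2] at hw1
  simp only [Pi.zero_apply, norm_zero] at hw1
  linarith

lemma order_ne_top {z : ℂ} (hz : z ∈ D) : analyticOrderAt g z ≠ ⊤ := fun h =>
  not_frequently_zero hg hc hb hz
    ((analyticOrderAt_eq_top.1 h).filter_mono nhdsWithin_le_nhds).frequently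

lemma finite_zeros : (D ∩ Function.support (analyticOrderNatAt g)).Finite := by
  by_contra hinf
  obtain ⟨s, -, hs, h⟩ := eventually_bd.1 hb
  obtain ⟨z, hz, hacc⟩ := Set.Infinite.exists_accPt_of_subset_isCompact hinf
    (isCompact_closedBall (0 : ℂ) s) (fun w hw => by
      have h1 : g w = 0 := apply_eq_zero_of_analyticOrderNatAt_ne_zero hw.2
      rw [mem_closedBall_zero_iff]
      by_contra h2
      have h3 := h w (not_le.1 h2) (mem_D.1 hw.1)
      rw [h1, norm_zero] at h3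
      linarith)
  refine not_frequently_zero hg hc hb (closedBall_subset_ball hs hz) ?_
  exact (accPt_iff_frequently_nhdsNE.1 hacc).mono fun w hw =>
    apply_eq_zero_of_analyticOrderNatAt_ne_zero hw.2

lemma nz_mul_lin {a : ℂ} (ha : a ∈ D) : nz (fun z => (z - a) * g z) = 1 + nz g := by
  classical
  have h1 : ∀ z, analyticOrderAt (fun w : ℂ => w - a) z = if z = a then 1 else 0 := by
    intro z
    split_ifs with h
    · subst h
      have := analyticOrderAt_centeredMonomial (z₀ := z) (n := 1)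
      rw [pow_one] at this
      exact this
    · exact analyticOrderAt_eq_zero.2 (Or.inr (sub_ne_zero.2 h))
  have h2 : ∀ z, analyticOrderNatAt (fun w : ℂ => w - a) z = if z = a then 1 else 0 := by
    intro z
    rw [analyticOrderNatAt, h1]
    split_ifs <;> rfl
  have h3 : nz (fun z => (z - a) * g z) =
      ∑ᶠ z ∈ D, ((if z = a then 1 else 0) + analyticOrderNatAt g z) := by
    refine finsum_mem_congr rfl fun z hz => ?_
    rw [← h2]
    refine analyticOrderNatAt_mul (f := fun w : ℂ => w - a) (by fun_prop)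
      (hg.analyticOnNhd isOpen_ball z hz) ?_ (order_ne_top hg hc hb hz)
    rw [h1]
    split_ifs <;> simp
  rw [h3, finsum_mem_add_distrib' _ (finite_zeros hg hc hb)]
  · congr 1
    rw [finsum_eq_single _ a]
    · simp [ha]
    · intro z hz
      simp [hz]
  · refine (finite_singleton a).subset fun z hz => ?_
    by_contra h
    exact hz.2 (if_neg h)

end

/-- A multiplier that is bounded below near the circle has a left inverse, and the codimension of
its range is the number of its zeros. -/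
theorem good_mul (k : ℕ) : ∀ {W : L2 →L[ℂ] L2} {g : ℂ → ℂ}, IsWC W g (fun z => z) →
    DifferentiableOn ℂ g D → ∀ {c : ℝ}, 0 < c → (∀ᶠ z in bd, c ≤ ‖g z‖) → nz g = k → Good W k := by
  induction k using Nat.strong_induction_on with
  | _ k ih =>
  intro W g hW hg c hc hb hk
  by_cases hz : ∃ a ∈ D, g a = 0
  · obtain ⟨a, ha, hga⟩ := hz
    obtain ⟨S, hS, hS1⟩ := good_lin ha
    obtain ⟨δ, hδ, hδb⟩ := eventually_le_norm_sub ha
    have hg₁ : DifferentiableOn ℂ (dslope g a) D :=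
      (Complex.differentiableOn_dslope (isOpen_ball.mem_nhds ha)).2 hg
    obtain ⟨K, hK⟩ := bdd_of_bd hg₁.continuousOn (c := δ⁻¹ * ‖W‖) (by
      filter_upwards [hδb, eventually_mem_D] with z h1 h2
      rw [le_inv_mul_iff₀ hδ]
      refine le_trans ?_ (hW.norm_apply_le h2)
      rw [← mul_dslope hga z, norm_mul]
      gcongr)
    obtain ⟨W₁, -, hW₁⟩ := exists_mul hg₁ hK
    have hb₁ : ∀ᶠ z in bd, c / 2 ≤ ‖dslope g a z‖ := by
      filter_upwards [hb, eventually_mem_D] with z h1 h2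
      rw [← mul_dslope hga z, norm_mul] at h1
      have h3 : ‖z - a‖ ≤ 2 := by linarith [norm_sub_le z a, mem_D.1 h2, mem_D.1 ha]
      nlinarith [norm_nonneg (dslope g a z)]
    have h1 := nz_mul_lin hg₁ (half_pos hc) hb₁ ha
    rw [funext (mul_dslope hga), hk] at h1
    have h2 : W = S * W₁ := hW.unique (hS.mul hW₁ fun _ hz => hz)
      (fun z _ => (mul_dslope hga z).symm) (fun _ _ => rfl)
    rw [h2, h1]
    exact hS1.mul (ih _ (by omega) hW₁ hg₁ (half_pos hc) hb₁ rfl)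
  · push Not at hz
    have h1 : nz g = 0 := finsum_mem_eq_zero_of_forall_eq_zero fun z h => by
      by_contra h2
      exact hz z h (apply_eq_zero_of_analyticOrderNatAt_ne_zero h2)
    obtain ⟨K, hK⟩ := bdd_of_bd (hg.inv hz).continuousOn (c := c⁻¹) (by
      filter_upwards [hb] with z h2
      rw [Pi.inv_apply, norm_inv]
      exact inv_anti₀ hc h2)
    obtain ⟨N, -, hN⟩ := exists_mul (hg.inv hz) hK
    rw [← hk, h1]
    refine good_of_isUnit ⟨⟨W, N, ?_, ?_⟩, rfl⟩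
    · exact (hW.mul hN (fun _ hz => hz)).unique isWC_one
        (fun z h => mul_inv_cancel₀ (hz z h)) (fun _ _ => rfl)
    · exact (hN.mul hW (fun _ hz => hz)).unique isWC_one
        (fun z h => inv_mul_cancel₀ (hz z h)) (fun _ _ => rfl)

/-- A multiplier that is invertible on the quotient module is bounded below near the circle. -/
lemma bd_of_inv {W : L2 →L[ℂ] L2} {g : ℂ → ℂ} (hW : IsWC W g (fun z => z)) {Y : X →L[ℂ] X}
    (hY : rep W * Y = 1) {c : ℝ} (hc : c * ‖Y‖ < 1) : ∀ᶠ z in bd, c < ‖g z‖ := by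
  by_contra h
  have h1 : ∃ᶠ z in bd, g z ∈ closedBall (0 : ℂ) c :=
    (not_eventually.1 h).mono fun z hz => mem_closedBall_zero_iff.2 (not_lt.1 hz)
  obtain ⟨γ, hγ, Φ, hΦ, hΦ1, hΦW⟩ := exists_state hW isClosed_closedBall h1
  have h2 := hΦW (Y one)
  rw [← mul_apply_eq_comp, hY] at h2
  have h3 : (1 : ℂ) = γ * Φ (Y one) := hΦ1.symm.trans h2
  have h4 : ‖Φ (Y one)‖ ≤ ‖Y‖ :=
    (hΦ _).trans ((Y.le_opNorm _).trans (mul_le_of_le_one_right (norm_nonneg _) norm_one_le))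
  have h5 := congrArg norm h3
  rw [norm_one, norm_mul] at h5
  have h6 := mem_closedBall_zero_iff.1 hγ
  have h7 : ‖γ‖ * ‖Φ (Y one)‖ ≤ c * ‖Y‖ :=
    mul_le_mul h6 h4 (norm_nonneg _) ((norm_nonneg _).trans h6)
  linarith

/-- The representation is isometric on multipliers. -/
lemma norm_le_norm_rep {W : L2 →L[ℂ] L2} {g : ℂ → ℂ} (hW : IsWC W g (fun z => z)) :
    ‖W‖ ≤ ‖rep W‖ := by
  refine le_of_forall_gt_imp_ge_of_dense fun c hc => ?_
  refine norm_le_of_bd hW ((norm_nonneg _).trans hc.le) ?_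
  by_contra h
  have h1 : ∃ᶠ z in bd, g z ∈ (ball (0 : ℂ) c)ᶜ :=
    (not_eventually.1 h).mono fun z hz h2 => hz (mem_ball_zero_iff.1 h2).le
  obtain ⟨γ, hγ, Φ, hΦ, hΦ1, hΦW⟩ := exists_state hW isOpen_ball.isClosed_compl h1
  have h2 := hΦW one
  rw [hΦ1, mul_one] at h2
  refine hγ (mem_ball_zero_iff.2 (lt_of_le_of_lt ?_ hc))
  rw [← h2]
  exact (hΦ _).trans (((rep W).le_opNorm _).trans
    (mul_le_of_le_one_right (norm_nonneg _) norm_one_le))

/-- Intermediate values near the circle. -/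
lemma frequently_eq {u : ℂ → ℝ} (hu : ContinuousOn u D) {t : ℝ} (h1 : ∃ᶠ z in bd, u z ≤ t)
    (h2 : ∃ᶠ z in bd, t ≤ u z) : ∃ᶠ z in bd, u z = t := by
  intro h
  obtain ⟨s, hs0, hs, h⟩ := eventually_bd.1 h
  have hA : ∀ᶠ z in bd, s < ‖z‖ ∧ ‖z‖ < 1 := eventually_bd.2 ⟨s, hs0, hs, fun z a b => ⟨a, b⟩⟩
  obtain ⟨z, hz1, hz2⟩ := (h1.and_eventually hA).exists
  obtain ⟨w, hw1, hw2⟩ := (h2.and_eventually hA).exists
  have hc : IsPreconnected {z : ℂ | s < ‖z‖ ∧ ‖z‖ < 1} := by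
    have h3 : IsPreconnected ((fun p : ℝ × ℝ => (p.1 : ℂ) * Complex.exp (p.2 * Complex.I)) ''
        (Ioo s 1 ×ˢ univ)) :=
      (isPreconnected_Ioo.prod isPreconnected_univ).image _ (by fun_prop)
    have h4 : (fun p : ℝ × ℝ => (p.1 : ℂ) * Complex.exp (p.2 * Complex.I)) '' (Ioo s 1 ×ˢ univ) =
        {z : ℂ | s < ‖z‖ ∧ ‖z‖ < 1} := by
      ext z
      constructor
      · rintro ⟨⟨r, θ⟩, ⟨hr, -⟩, rfl⟩
        have h5 : ‖(r : ℂ) * Complex.exp (θ * Complex.I)‖ = r := by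
          rw [norm_mul, Complex.norm_exp_ofReal_mul_I, mul_one, Complex.norm_real,
            Real.norm_of_nonneg (hs0.trans hr.1).le]
        exact ⟨h5.symm ▸ hr.1, h5.symm ▸ hr.2⟩
      · intro hz
        exact ⟨(‖z‖, z.arg), ⟨hz, mem_univ _⟩, Complex.norm_mul_exp_arg_mul_I z⟩
    rwa [h4] at h3
  obtain ⟨v, hv, hvt⟩ := hc.intermediate_value hz2 hw2 (hu.mono fun z hz => mem_D.2 hz.2)
    ⟨hz1, hw1⟩
  exact h v hv.1 hv.2 hvt

end Pool.Agent.Lib.MP_0e93e1_an.Ess
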