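import Pool.Agent.Lib.MP_0e93e1_an.Model
import Pool.Agent.Lib.MP_0e93e1_an.Ess.Abs

/-!
The operators modulo those that kill the normalised kernels near the circle, as a module over all
operators, and the boundary states on it.
-/

open Metric Set Filter Topology
open scoped Real ComplexConjugate InnerProductSpace

noncomputable section

namespace Pool.Agent.Lib.MP_0e93e1_an.Ess

/-- points of the disc that approach the circle -/
abbrev bd : Filter ℂ := comap norm (𝓝[<] (1 : ℝ))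

lemma eventually_bd {p : ℂ → Prop} :
    (∀ᶠ z in bd, p z) ↔ ∃ s : ℝ, 0 < s ∧ s < 1 ∧ ∀ z : ℂ, s < ‖z‖ → ‖z‖ < 1 → p z := by
  rw [eventually_comap]
  constructor
  · intro h
    obtain ⟨s, hs, h1⟩ := mem_nhdsLT_iff_exists_Ioo_subset.1 h
    refine ⟨max s (1 / 2), by positivity, max_lt hs (by norm_num), fun z h2 h3 => ?_⟩
    exact h1 ⟨(le_max_left _ _).trans_lt h2, h3⟩ z rfl
  · rintro ⟨s, -, hs, h⟩
    filter_upwards [Ioo_mem_nhdsLT hs] with r hr z hz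
    exact h z (hz ▸ hr.1) (hz ▸ hr.2)

lemma eventually_mem_D : ∀ᶠ z in bd, z ∈ D :=
  eventually_bd.2 ⟨1 / 2, by norm_num, by norm_num, fun _ _ h => mem_D.2 h⟩

instance : bd.NeBot := by
  rw [← frequently_true_iff_neBot, Filter.Frequently]
  intro h
  obtain ⟨s, hs0, hs, h⟩ := eventually_bd.1 h
  have h1 : ‖(((s + 1) / 2 : ℝ) : ℂ)‖ = (s + 1) / 2 := by
    rw [Complex.norm_real, Real.norm_of_nonneg (by positivity)]
  exact h (((s + 1) / 2 : ℝ) : ℂ) (by rw [h1]; linarith) (by rw [h1]; linarith) trivial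

lemma exists_kap (z : ℂ) : ∃ k : L2, ‖k‖ ≤ 1 ∧ (z ∈ D → ⟪k, k⟫_ℂ = 1 ∧
    ∀ x : L2, ⟪k, x⟫_ℂ = (√(1 - ‖z‖ ^ 2) : ℝ) * ev x z) := by
  by_cases hz : z ∈ D
  · have hz' := mem_D.1 hz
    obtain ⟨k, hk1, hk2⟩ := exists_kernel hz'
    set c : ℂ := ((√(1 - ‖z‖ ^ 2) : ℝ) : ℂ) with hc
    have h1 : ∀ x : L2, ⟪c • k, x⟫_ℂ = c * ev x z := fun x => by
      rw [inner_smul_left, hk2, hc, Complex.conj_ofReal]
    have h2 : ⟪c • k, c • k⟫_ℂ = 1 := by
      have h5 : c ^ 2 = 1 - conj z * z := by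
        rw [hc, ← Complex.ofReal_pow, Real.sq_sqrt (one_sub_sq_pos hz').le, mul_comm, mul_conj_eq]
        push_cast
        ring
      have h3 := one_sub_mul_conj_ne hz'
      rw [h1, ev_smul, hk1 z hz]
      field_simp
      exact h5
    refine ⟨c • k, ?_, fun _ => ⟨h2, h1⟩⟩
    have h3 : ‖c • k‖ ^ 2 = 1 := by
      rw [← inner_self_eq_norm_sq (𝕜 := ℂ), h2]
      simp
    nlinarith [norm_nonneg (c • k)]
  · exact ⟨0, by simp, fun h => absurd h hz⟩

/-- the normalised reproducing kernels -/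
def kap (z : ℂ) : L2 := (exists_kap z).choose

lemma norm_kap_le (z : ℂ) : ‖kap z‖ ≤ 1 := (exists_kap z).choose_spec.1

lemma inner_kap_self {z : ℂ} (hz : z ∈ D) : ⟪kap z, kap z⟫_ℂ = 1 :=
  ((exists_kap z).choose_spec.2 hz).1

lemma inner_kap {z : ℂ} (hz : z ∈ D) (x : L2) :
    ⟪kap z, x⟫_ℂ = (√(1 - ‖z‖ ^ 2) : ℝ) * ev x z := ((exists_kap z).choose_spec.2 hz).2 x

lemma norm_inner_kap_le (z : ℂ) (x : L2) : ‖⟪kap z, x⟫_ℂ‖ ≤ ‖x‖ :=
  (norm_inner_le_norm _ _).trans (mul_le_of_le_one_left (norm_nonneg _) (norm_kap_le z))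

lemma tendsto_inner_kap (x : L2) : Tendsto (fun z => ⟪kap z, x⟫_ℂ) bd (𝓝 0) := by
  rw [NormedAddGroup.tendsto_nhds_zero]
  intro ε hε
  have hs := lp.hasSum_single (p := 2) (by norm_num) x
  obtain ⟨s, hs⟩ := ((Metric.tendsto_nhds.1 hs) (ε / 2) (by positivity)).exists
  set y : L2 := ∑ i ∈ s, lp.single 2 i (x i) with hy
  have h1 : ∀ z ∈ D, ‖ev y z‖ ≤ ∑ i ∈ s, ‖x i‖ := by
    intro z hz
    rw [← evL_apply hz, hy, map_sum]
    refine norm_sum_le_of_le _ fun i _ => ?_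
    rw [evL_apply, ev_single, norm_mul, norm_pow]
    have : ‖z‖ ^ i ≤ 1 := pow_le_one₀ (norm_nonneg _) (mem_D.1 hz).le
    nlinarith [norm_nonneg (x i)]
  have h2 : Tendsto (fun r : ℝ => √(1 - r ^ 2) * ∑ i ∈ s, ‖x i‖) (𝓝 1)
      (𝓝 (√(1 - 1 ^ 2) * ∑ i ∈ s, ‖x i‖)) := Continuous.tendsto (by fun_prop) 1
  have h3 : Tendsto (norm : ℂ → ℝ) bd (𝓝 1) := tendsto_comap.mono_right nhdsWithin_le_nhds
  have h4 := (h2.comp h3).eventually_lt_const (u := ε / 2) (by simpa using hε)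
  filter_upwards [h4, eventually_mem_D] with z hz1 hz2
  have h5 : ⟪kap z, x⟫_ℂ = ⟪kap z, y⟫_ℂ - ⟪kap z, y - x⟫_ℂ := by
    rw [inner_sub_right]
    ring
  have h6 : ‖⟪kap z, y⟫_ℂ‖ ≤ √(1 - ‖z‖ ^ 2) * ∑ i ∈ s, ‖x i‖ := by
    rw [inner_kap hz2, norm_mul, Complex.norm_real, Real.norm_of_nonneg (Real.sqrt_nonneg _)]
    gcongr
    exact h1 z hz2
  have h7 := norm_inner_kap_le z (y - x)
  rw [dist_eq_norm] at hs
  rw [h5]
  refine (norm_sub_le _ _).trans_lt ?_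
  simp only [Function.comp] at hz1
  linarith

lemma tendsto_finite {F : L2 →L[ℂ] L2} (hF : FiniteDimensional ℂ F.range) :
    Tendsto (fun z => F (kap z)) bd (𝓝 0) := by
  let b := stdOrthonormalBasis ℂ F.range
  have h1 : ∀ x : L2, F x = ∑ i, conj ⟪x, ContinuousLinearMap.adjoint F (b i)⟫_ℂ • (b i : L2) := by
    intro x
    have h2 := congrArg Subtype.val (b.sum_repr' ⟨F x, x, rfl⟩)
    rw [← show _ = F x from h2, Submodule.coe_sum]
    refine Finset.sum_congr rfl fun i _ => ?_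
    rw [inner_conj_symm, ContinuousLinearMap.adjoint_inner_left]
    rfl
  simp_rw [h1]
  have h2 : Tendsto (fun z => ∑ i, conj ⟪kap z, ContinuousLinearMap.adjoint F (b i)⟫_ℂ • (b i : L2))
      bd (𝓝 (∑ i, conj (0 : ℂ) • (b i : L2))) :=
    tendsto_finsetSum _ fun i _ =>
      ((Complex.continuous_conj.tendsto 0).comp (tendsto_inner_kap _)).smul_const _
  simpa using h2

/-- operators that kill the normalised kernels near the circle -/
def J : Submodule ℂ (L2 →L[ℂ] L2) where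
  carrier := {A | Tendsto (fun z => A (kap z)) bd (𝓝 0)}
  add_mem' := fun {A B} hA hB => by simpa using Tendsto.add hA hB
  zero_mem' := by simp
  smul_mem' := fun c A hA => by simpa using Tendsto.const_smul hA c

lemma mem_J {A : L2 →L[ℂ] L2} : A ∈ J ↔ Tendsto (fun z => A (kap z)) bd (𝓝 0) := Iff.rfl

lemma mul_mem_J (A : L2 →L[ℂ] L2) {B : L2 →L[ℂ] L2} (hB : B ∈ J) : A * B ∈ J := by
  have := (A.continuous.tendsto 0).comp (mem_J.1 hB)
  rw [map_zero] at this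
  exact this

instance : IsClosed (J : Set (L2 →L[ℂ] L2)) := by
  refine isClosed_of_closure_subset fun A hA => ?_
  rw [SetLike.mem_coe, mem_J, NormedAddGroup.tendsto_nhds_zero]
  intro ε hε
  obtain ⟨B, hB, hAB⟩ := Metric.mem_closure_iff.1 hA (ε / 2) (by positivity)
  filter_upwards [NormedAddGroup.tendsto_nhds_zero.1 (mem_J.1 hB) (ε / 2) (by positivity)] with z hz
  have h1 : A (kap z) = B (kap z) + (A - B) (kap z) := by simp
  have h2 : ‖(A - B) (kap z)‖ ≤ ‖A - B‖ :=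
    ((A - B).le_opNorm _).trans (mul_le_of_le_one_right (norm_nonneg _) (norm_kap_le z))
  rw [dist_eq_norm] at hAB
  rw [h1]
  refine (norm_add_le _ _).trans_lt ?_
  linarith

/-- the quotient module -/
def X : Type := (L2 →L[ℂ] L2) ⧸ J

instance : NormedAddCommGroup X := inferInstanceAs (NormedAddCommGroup ((L2 →L[ℂ] L2) ⧸ J))

instance : NormedSpace ℂ X := inferInstanceAs (NormedSpace ℂ ((L2 →L[ℂ] L2) ⧸ J))

instance : CompleteSpace X := inferInstanceAs (CompleteSpace ((L2 →L[ℂ] L2) ⧸ J))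

/-- the class of an operator -/
def mk : (L2 →L[ℂ] L2) →ₗ[ℂ] X := J.mkQ

lemma mk_surjective (x : X) : ∃ B, mk B = x := Submodule.Quotient.mk_surjective J x

lemma mk_eq_zero {B : L2 →L[ℂ] L2} : mk B = 0 ↔ B ∈ J := Submodule.Quotient.mk_eq_zero J

lemma norm_mk_le (B : L2 →L[ℂ] L2) : ‖mk B‖ ≤ ‖B‖ := Submodule.Quotient.norm_mk_le J B

lemma norm_mk_lt (x : X) {ε : ℝ} (hε : 0 < ε) : ∃ B, mk B = x ∧ ‖B‖ < ‖x‖ + ε :=
  Submodule.Quotient.norm_mk_lt (S := J) x hε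

/-- left multiplication on the quotient module, as a linear map -/
def repl (A : L2 →L[ℂ] L2) : X →ₗ[ℂ] X :=
  J.mapQ J (LinearMap.mulLeft ℂ A) fun _ hB => mul_mem_J A hB

lemma repl_mk (A B : L2 →L[ℂ] L2) : repl A (mk B) = mk (A * B) := rfl

lemma norm_repl_le (A : L2 →L[ℂ] L2) (x : X) : ‖repl A x‖ ≤ ‖A‖ * ‖x‖ := by
  refine le_of_forall_pos_le_add fun ε hε => ?_
  obtain ⟨B, rfl, hB⟩ := norm_mk_lt x (ε := ε / (‖A‖ + 1)) (by positivity)
  rw [repl_mk]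
  have h1 : ‖A‖ * (ε / (‖A‖ + 1)) ≤ ε := by
    rw [← mul_div_assoc, div_le_iff₀ (by positivity)]
    nlinarith
  calc ‖mk (A * B)‖ ≤ ‖A‖ * ‖B‖ := (norm_mk_le _).trans (norm_mul_le _ _)
    _ ≤ ‖A‖ * (‖mk B‖ + ε / (‖A‖ + 1)) := by gcongr
    _ ≤ _ := by rw [mul_add]; linarith

/-- left multiplication on the quotient module -/
def repL (A : L2 →L[ℂ] L2) : X →L[ℂ] X := (repl A).mkContinuous ‖A‖ (norm_repl_le A)

lemma repL_mk (A B : L2 →L[ℂ] L2) : repL A (mk B) = mk (A * B) := rfl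

lemma ext_X {S T : X →L[ℂ] X} (h : ∀ B, S (mk B) = T (mk B)) : S = T := by
  refine ContinuousLinearMap.ext fun x => ?_
  obtain ⟨B, rfl⟩ := mk_surjective x
  exact h B

/-- the representation on the quotient module -/
def rep : (L2 →L[ℂ] L2) →ₐ[ℂ] (X →L[ℂ] X) where
  toFun := repL
  map_one' := ext_X fun B => by rw [repL_mk, one_mul]; rfl
  map_mul' A A' := ext_X fun B => by
    rw [mul_apply_eq_comp, repL_mk, repL_mk, repL_mk, mul_assoc]
  map_zero' := ext_X fun B => by rw [repL_mk, zero_mul, map_zero]; rfl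
  map_add' A A' := ext_X fun B => by rw [repL_mk, add_mul, map_add]; rfl
  commutes' c := ext_X fun B => by
    rw [repL_mk, Algebra.algebraMap_eq_smul_one, Algebra.algebraMap_eq_smul_one, smul_mul_assoc,
      one_mul, map_smul]
    rfl

lemma rep_mk (A B : L2 →L[ℂ] L2) : rep A (mk B) = mk (A * B) := rfl

lemma norm_rep_le (A : L2 →L[ℂ] L2) : ‖rep A‖ ≤ ‖A‖ :=
  ContinuousLinearMap.opNorm_le_bound _ (norm_nonneg _) (norm_repl_le A)

lemma rep_finite {F : L2 →L[ℂ] L2} (hF : FiniteDimensional ℂ F.range) : rep F = 0 := by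
  refine ext_X fun B => ?_
  rw [rep_mk]
  refine mk_eq_zero.2 (tendsto_finite ?_)
  refine Submodule.finiteDimensional_of_le (S₂ := F.range) ?_
  rintro _ ⟨x, rfl⟩
  exact ⟨B x, rfl⟩

lemma isUnit_rep_of_reg {A B : L2 →L[ℂ] L2} (h1 : FiniteDimensional ℂ (B * A - 1).range)
    (h2 : FiniteDimensional ℂ (A * B - 1).range) : IsUnit (rep A) := by
  have h3 := rep_finite h1
  have h4 := rep_finite h2
  rw [map_sub, map_mul, map_one, sub_eq_zero] at h3 h4
  exact ⟨⟨_, rep B, h4, h3⟩, rfl⟩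

lemma isUnit_rep_of_good {A : L2 →L[ℂ] L2} {k : ℕ} (h : Good A k) : IsUnit (rep A) := by
  obtain ⟨B, h1, h2⟩ := exists_reg _ (h.conj (ContinuousLinearEquiv.refl ℂ L2)).isFredholm
  exact isUnit_rep_of_reg h1 h2

/-- the class of the identity -/
def one : X := mk 1

lemma norm_one_le : ‖one‖ ≤ 1 := (norm_mk_le _).trans norm_one.le

/-- Every cluster value of a multiplier at the circle is seen by a state. -/
theorem exists_state {W : L2 →L[ℂ] L2} {g : ℂ → ℂ} (hW : IsWC W g (fun z => z)) {S : Set ℂ}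
    (hS : IsClosed S) (h : ∃ᶠ z in bd, g z ∈ S) :
    ∃ γ ∈ S, ∃ Φ : X →L[ℂ] ℂ, (∀ x, ‖Φ x‖ ≤ ‖x‖) ∧ Φ one = 1 ∧ ∀ x, Φ (rep W x) = γ * Φ x := by
  have hne : (bd ⊓ 𝓟 {z | g z ∈ S}).NeBot := frequently_iff_neBot.1 h
  let U : Ultrafilter ℂ := Ultrafilter.of (bd ⊓ 𝓟 {z | g z ∈ S})
  have hU : (U : Filter ℂ) ≤ bd := (Ultrafilter.of_le _).trans inf_le_left
  have hUS : ∀ᶠ z in (U : Filter ℂ), g z ∈ S :=
    le_principal_iff.1 ((Ultrafilter.of_le _).trans inf_le_right)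
  have hb : ∀ (A : L2 →L[ℂ] L2) (z : ℂ), ‖⟪kap z, A (kap z)⟫_ℂ‖ ≤ ‖A‖ := fun A z =>
    (norm_inner_kap_le _ _).trans
      ((A.le_opNorm _).trans (mul_le_of_le_one_right (norm_nonneg _) (norm_kap_le z)))
  have h1 : ∀ A : L2 →L[ℂ] L2, ∃ c : ℂ, Tendsto (fun z => ⟪kap z, A (kap z)⟫_ℂ) U (𝓝 c) := by
    intro A
    obtain ⟨c, -, hc⟩ := (isCompact_closedBall (0 : ℂ) ‖A‖).ultrafilter_le_nhds
      (U.map fun z => ⟪kap z, A (kap z)⟫_ℂ) (by
        rw [le_principal_iff, Ultrafilter.coe_map, mem_map]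
        exact Eventually.of_forall fun z => mem_closedBall_zero_iff.2 (hb A z))
    exact ⟨c, hc⟩
  choose f hf using h1
  let f₁ : (L2 →L[ℂ] L2) →ₗ[ℂ] ℂ :=
    { toFun := f
      map_add' := fun A B => tendsto_nhds_unique (hf (A + B))
        (((hf A).add (hf B)).congr fun z => by rw [add_apply, inner_add_right])
      map_smul' := fun c A => tendsto_nhds_unique (hf (c • A))
        (((hf A).const_mul c).congr fun z => by rw [smul_apply, inner_smul_right]) }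
  have hfb : ∀ A, ‖f A‖ ≤ ‖A‖ := fun A => le_of_tendsto' (hf A).norm (hb A)
  have hJ : J ≤ LinearMap.ker f₁ := by
    intro A hA
    refine tendsto_nhds_unique (hf A) ?_
    refine squeeze_zero_norm (fun z => norm_inner_kap_le z _) ?_
    exact tendsto_zero_iff_norm_tendsto_zero.1 ((mem_J.1 hA).mono_left hU)
  have hD : ∀ᶠ z in (U : Filter ℂ), z ∈ D := hU eventually_mem_D
  have hWx : ∀ z ∈ D, ∀ x : L2, ⟪kap z, W x⟫_ℂ = g z * ⟪kap z, x⟫_ℂ := fun z hz x => by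
    rw [inner_kap hz, inner_kap hz, hW x z hz]
    ring
  have hg : Tendsto g U (𝓝 (f W)) := by
    refine (hf W).congr' ?_
    filter_upwards [hD] with z hz
    rw [hWx z hz, inner_kap_self hz, mul_one]
  let f₂ : X →ₗ[ℂ] ℂ := J.liftQ f₁ hJ
  have hf₂ : ∀ x, ‖f₂ x‖ ≤ ‖x‖ := fun x => by
    refine le_of_forall_pos_le_add fun ε hε => ?_
    obtain ⟨B, rfl, hB⟩ := norm_mk_lt x hε
    exact (hfb B).trans hB.le
  refine ⟨f W, hS.mem_of_tendsto hg hUS,
    f₂.mkContinuous 1 fun x => by rw [one_mul]; exact hf₂ x, hf₂, ?_, fun x => ?_⟩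
  · refine tendsto_nhds_unique (hf 1) (tendsto_const_nhds.congr' ?_)
    filter_upwards [hD] with z hz
    exact (inner_kap_self hz).symm
  · obtain ⟨B, rfl⟩ := mk_surjective x
    refine tendsto_nhds_unique (hf (W * B)) ((hg.mul (hf B)).congr' ?_)
    filter_upwards [hD] with z hz
    rw [mul_apply_eq_comp, hWx z hz]

instance : Nontrivial X := by
  obtain ⟨-, -, Φ, -, h, -⟩ := exists_state isWC_one isClosed_univ
    (Eventually.of_forall fun _ => mem_univ _).frequently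
  refine ⟨⟨one, 0, fun h0 => ?_⟩⟩
  rw [h0, map_zero] at h
  exact zero_ne_one h

end Pool.Agent.Lib.MP_0e93e1_an.Ess
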